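import Pool.Agent.H20.RT.Stmts

/-! Row SIX of the board rt (MP_a315fd_nt): six steps of the RATS map. -/

set_option autoImplicit false

namespace Pool.RT

theorem SIX_thm (h1 : S1Stmt) (h2 : S2Stmt) (h3 : S3Stmt) (h4 : S4Stmt) (h5 : S5Stmt)
    (h6 : S6Stmt) : SIXStmt := by
  intro a b
  have e1 : T (Wd (63 * (b + 1) + a) (b + 1) 0 0 0 0 0 0 0) =
      Wd 0 (62 * b + 62 + a) (2 * b + 2) 0 0 0 0 0 0 := by
    have h := h1 (62 * b + 62 + a) (b + 1)
    rw [show 62 * b + 62 + a + (b + 1) = 63 * (b + 1) + a by omega,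
      show 2 * (b + 1) = 2 * b + 2 by omega] at h
    exact h
  have e2 : T (Wd 0 (62 * b + 62 + a) (2 * b + 2) 0 0 0 0 0 0) =
      Wd 0 0 0 (60 * b + 60 + a) (4 * b + 4) 0 0 0 0 := by
    have h := h2 (60 * b + 60 + a) (2 * b + 2)
    rw [show 60 * b + 60 + a + (2 * b + 2) = 62 * b + 62 + a by omega,
      show 2 * (2 * b + 2) = 4 * b + 4 by omega] at h
    exact h
  have e3 : T (Wd 0 0 0 (60 * b + 60 + a) (4 * b + 4) 0 0 0 0) =
      Wd 0 0 0 0 0 0 0 (56 * b + 56 + a) (8 * b + 8) := by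
    have h := h3 (56 * b + 56 + a) (4 * b + 4)
    rw [show 56 * b + 56 + a + (4 * b + 4) = 60 * b + 60 + a by omega,
      show 2 * (4 * b + 4) = 8 * b + 8 by omega] at h
    exact h
  have e4 : T (Wd 0 0 0 0 0 0 0 (56 * b + 56 + a) (8 * b + 8)) =
      Wd 1 0 0 0 0 0 (48 * b + 49 + a) (16 * b + 15) 0 := by
    have h := h4 (48 * b + 48 + a) (8 * b + 7)
    rw [show 48 * b + 48 + a + (8 * b + 7) + 1 = 56 * b + 56 + a by omega,
      show 8 * b + 7 + 1 = 8 * b + 8 by omega,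
      show 48 * b + 48 + a + 1 = 48 * b + 49 + a by omega,
      show 2 * (8 * b + 7) + 1 = 16 * b + 15 by omega] at h
    exact h
  have e5 : T (Wd 1 0 0 0 0 0 (48 * b + 49 + a) (16 * b + 15) 0) =
      Wd 1 0 0 0 (32 * b + 36 + a) (32 * b + 27) 0 0 1 := by
    have h := h5 (32 * b + 35 + a) (16 * b + 13)
    rw [show 32 * b + 35 + a + (16 * b + 13) + 1 = 48 * b + 49 + a by omega,
      show 16 * b + 13 + 2 = 16 * b + 15 by omega,
      show 32 * b + 35 + a + 1 = 32 * b + 36 + a by omega,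
      show 2 * (16 * b + 13) + 1 = 32 * b + 27 by omega] at h
    exact h
  have e6 : T (Wd 1 0 0 0 (32 * b + 36 + a) (32 * b + 27) 0 0 1) =
      Wd (a + 11) (64 * b + 54) 0 0 0 0 0 0 0 := by
    have h := h6 (a + 9) (32 * b + 27)
    rw [show a + 9 + (32 * b + 27) = 32 * b + 36 + a by omega,
      show a + 9 + 2 = a + 11 by omega,
      show 2 * (32 * b + 27) = 64 * b + 54 by omega] at h
    exact h
  show T (T (T (T (T (T (Wd (63 * (b + 1) + a) (b + 1) 0 0 0 0 0 0 0)))))) = _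
  rw [e1, e2, e3, e4, e5, e6]

end Pool.RT
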